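import Mathlib

/-!
# Few sets of free variables: the count

`t : K → Option Bool` is a subcube, random: every coordinate is free with probability `s` and a uniform
bit otherwise. Some node `i` is alive in `t` and has at most `e` variables in `S i` that are free in `t`.
If `S i` is large this is unlikely, with a union bound over the different sets `S i`; if `S i` is small,
then `t` agrees with the values of the node outside `S i`.
-/

namespace Pool.Agent.H83.GR

open Finset

/-- Weights: a free coordinate has weight `s`, a bit `(1 - s) / 2`. -/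
noncomputable def w (s : ℝ) : Option Bool → ℝ
  | none => s
  | some _ => (1 - s) / 2

private theorem w_nonneg {s : ℝ} (h0 : 0 ≤ s) (h1 : s ≤ 1) (o : Option Bool) : 0 ≤ w s o := by
  cases o with
  | none => exact h0
  | some b => simp only [w]; linarith

private theorem sum_w (s : ℝ) : ∑ o, w s o = 1 := by
  rw [Fintype.sum_option]
  simp only [w, Fintype.univ_bool, Finset.sum_const]
  simp
  ring

private theorem sum_prod {K : Type*} [Fintype K] [DecidableEq K] (f : K → Option Bool → ℝ) :
    ∑ t : K → Option Bool, ∏ v, f v (t v) = ∏ v, ∑ o, f v o := by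
  rw [Finset.prod_univ_sum, Fintype.piFinset_univ]

private theorem sum_W {K : Type*} [Fintype K] [DecidableEq K] (s : ℝ) :
    ∑ t : K → Option Bool, ∏ v, w s (t v) = 1 := by
  rw [sum_prod fun _ => w s]
  simp only [sum_w, prod_const_one]

open Classical in
private theorem small {K : Type*} [Fintype K] [DecidableEq K] {s : ℝ} (S : Finset K) (a : K → Bool) :
    ∑ t : K → Option Bool, (if ∀ v, v ∉ S → t v = none ∨ t v = some (a v) then ∏ v, w s (t v) else 0)
      = ((1 + s) / 2) ^ (Fintype.card K - S.card) := by
  have h2 : ∀ t : K → Option Bool,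
      (if ∀ v, v ∉ S → t v = none ∨ t v = some (a v) then ∏ v, w s (t v) else 0) =
        ∏ v, if v ∉ S → t v = none ∨ t v = some (a v) then w s (t v) else 0 := by
    intro t
    by_cases h : ∀ v, v ∉ S → t v = none ∨ t v = some (a v)
    · rw [if_pos h]
      exact prod_congr rfl fun v _ => (if_pos (h v)).symm
    · rw [if_neg h]
      obtain ⟨v, hv⟩ := not_forall.1 h
      exact (prod_eq_zero (mem_univ v) (if_neg hv)).symm
  rw [sum_congr rfl fun t _ => h2 t,
    sum_prod fun v o => if v ∉ S → o = none ∨ o = some (a v) then w s o else 0]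
  have h3 : ∀ v, (∑ o, if v ∉ S → o = none ∨ o = some (a v) then w s o else 0) =
      if v ∈ S then 1 else (1 + s) / 2 := by
    intro v
    by_cases hv : v ∈ S
    · rw [if_pos hv, ← sum_w s]
      exact sum_congr rfl fun o _ => if_pos fun h => absurd hv h
    · rw [if_neg hv, Fintype.sum_option]
      simp only [hv, not_false_eq_true, forall_const, true_or, if_true, reduceCtorEq, false_or,
        Option.some.injEq, w]
      rw [Finset.sum_ite_eq' univ (a v) fun _ => (1 - s) / 2, if_pos (mem_univ _)]
      ring
  rw [prod_congr rfl fun v _ => h3 v, prod_ite, prod_const_one, one_mul, prod_const]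
  congr 1
  have h4 : univ.filter (fun v => v ∉ S) = univ \ S := by
    ext v
    simp
  rw [h4, card_univ_sdiff]

private theorem large {K : Type*} [Fintype K] [DecidableEq K] {s : ℝ} (h0 : 0 ≤ s) (h1 : s ≤ 1)
    (U : Finset K) (e : ℕ) :
    ∑ t : K → Option Bool, (if (U.filter fun v => t v = none).card ≤ e then ∏ v, w s (t v) else 0)
      ≤ 2 ^ e * (1 - s / 2) ^ U.card := by
  have h2 : ∀ t : K → Option Bool,
      (if (U.filter fun v => t v = none).card ≤ e then ∏ v, w s (t v) else 0) ≤
        2 ^ e * ∏ v, (if v ∈ U ∧ t v = none then 1 / 2 else 1) * w s (t v) := by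
    intro t
    have hW : 0 ≤ ∏ v, w s (t v) := prod_nonneg fun v _ => w_nonneg h0 h1 _
    have h3 : ∏ v, (if v ∈ U ∧ t v = none then (1 / 2 : ℝ) else 1) =
        (1 / 2) ^ (U.filter fun v => t v = none).card := by
      rw [prod_ite, prod_const_one, mul_one, prod_const]
      congr 2
      ext v
      simp only [mem_filter, mem_univ, true_and]
    rw [prod_mul_distrib, h3, ← mul_assoc]
    by_cases h : (U.filter fun v => t v = none).card ≤ e
    · rw [if_pos h]
      refine le_mul_of_one_le_left hW ?_
      have h4 : ((1 : ℝ) / 2) ^ e ≤ (1 / 2) ^ (U.filter fun v => t v = none).card :=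
        pow_le_pow_of_le_one (by norm_num) (by norm_num) h
      calc (1 : ℝ) = 2 ^ e * (1 / 2) ^ e := by rw [← mul_pow]; norm_num
        _ ≤ _ := mul_le_mul_of_nonneg_left h4 (by positivity)
    · rw [if_neg h]
      positivity
  refine (sum_le_sum fun t _ => h2 t).trans ?_
  rw [← mul_sum, sum_prod fun v o => (if v ∈ U ∧ o = none then 1 / 2 else 1) * w s o]
  refine mul_le_mul_of_nonneg_left (le_of_eq ?_) (by positivity)
  have h5 : ∀ v, (∑ o, (if v ∈ U ∧ o = none then (1 / 2 : ℝ) else 1) * w s o) =
      if v ∈ U then 1 - s / 2 else 1 := by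
    intro v
    by_cases hv : v ∈ U
    · rw [if_pos hv, Fintype.sum_option]
      simp only [hv, true_and, if_true, reduceCtorEq, if_false, one_mul, w, sum_const,
        Fintype.univ_bool]
      simp
      ring
    · rw [if_neg hv]
      refine Eq.trans (sum_congr rfl fun o _ => ?_) (sum_w s)
      rw [if_neg fun h => hv h.1, one_mul]
  rw [prod_congr rfl fun v _ => h5 v, prod_ite, prod_const_one, mul_one, prod_const]
  congr 2
  ext v
  simp

/-- The count. -/
theorem count {K : Type*} [Fintype K] [DecidableEq K] {N e σ : ℕ} (S : Fin N → Finset K)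
    (a : Fin N → K → Bool) (Q : Fin N → (K → Option Bool) → Prop)
    (agree : ∀ i t, Q i t → ∀ v, v ∉ S i → t v = none ∨ t v = some (a i v))
    (hl : ∀ t, ∃ i, Q i t ∧ ((S i).filter fun v => t v = none).card ≤ e)
    {s : ℝ} (h0 : 0 ≤ s) (h1 : s ≤ 1) :
    1 ≤ N * ((1 + s) / 2) ^ (Fintype.card K - σ) +
      (univ.image S).card * (2 ^ e * (1 - s / 2) ^ σ) := by
  classical
  have hpt : ∀ t : K → Option Bool, ∏ v, w s (t v) ≤
      (∑ i, if (S i).card ≤ σ then
        (if ∀ v, v ∉ S i → t v = none ∨ t v = some (a i v) then ∏ v, w s (t v) else 0) else 0) +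
      ∑ U ∈ univ.image S, if σ ≤ U.card then
        (if (U.filter fun v => t v = none).card ≤ e then ∏ v, w s (t v) else 0) else 0 := by
    intro t
    have hW : 0 ≤ ∏ v, w s (t v) := prod_nonneg fun v _ => w_nonneg h0 h1 _
    have n1 : ∀ i ∈ (univ : Finset (Fin N)), 0 ≤ (if (S i).card ≤ σ then
        (if ∀ v, v ∉ S i → t v = none ∨ t v = some (a i v) then ∏ v, w s (t v) else 0) else 0) := by
      intro i _
      split_ifs <;> first | exact hW | exact le_rfl
    have n2 : ∀ U ∈ univ.image S, 0 ≤ (if σ ≤ U.card then
        (if (U.filter fun v => t v = none).card ≤ e then ∏ v, w s (t v) else 0) else 0) := by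
      intro U _
      split_ifs <;> first | exact hW | exact le_rfl
    obtain ⟨i, hi, he⟩ := hl t
    by_cases hc : (S i).card ≤ σ
    · have h2 := single_le_sum n1 (mem_univ i)
      rw [if_pos hc, if_pos (agree i t hi)] at h2
      exact h2.trans (le_add_of_nonneg_right (sum_nonneg n2))
    · have h2 := single_le_sum n2 (mem_image_of_mem S (mem_univ i))
      rw [if_pos (by omega), if_pos he] at h2
      exact h2.trans (le_add_of_nonneg_left (sum_nonneg n1))
  have hsum := sum_le_sum fun t (_ : t ∈ (univ : Finset (K → Option Bool))) => hpt t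
  rw [sum_W, sum_add_distrib, sum_comm, sum_comm (s := univ) (t := univ.image S)] at hsum
  refine hsum.trans (add_le_add ?_ ?_)
  · have h3 : ∀ i ∈ (univ : Finset (Fin N)), (∑ t : K → Option Bool, if (S i).card ≤ σ then
        (if ∀ v, v ∉ S i → t v = none ∨ t v = some (a i v) then ∏ v, w s (t v) else 0) else 0) ≤
        ((1 + s) / 2) ^ (Fintype.card K - σ) := by
      intro i _
      by_cases hc : (S i).card ≤ σ
      · simp only [if_pos hc]
        rw [small (S i) (a i)]
        exact pow_le_pow_of_le_one (by linarith) (by linarith) (by omega)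
      · simp only [if_neg hc, sum_const_zero]
        exact pow_nonneg (by linarith) _
    refine (sum_le_card_nsmul _ _ _ h3).trans (le_of_eq ?_)
    rw [card_univ, Fintype.card_fin, nsmul_eq_mul]
  · have h3 : ∀ U ∈ univ.image S, (∑ t : K → Option Bool, if σ ≤ U.card then
        (if (U.filter fun v => t v = none).card ≤ e then ∏ v, w s (t v) else 0) else 0) ≤
        2 ^ e * (1 - s / 2) ^ σ := by
      intro U _
      by_cases hc : σ ≤ U.card
      · simp only [if_pos hc]
        refine (large h0 h1 U e).trans (mul_le_mul_of_nonneg_left ?_ (by positivity))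
        exact pow_le_pow_of_le_one (by linarith) (by linarith) hc
      · simp only [if_neg hc, sum_const_zero]
        exact mul_nonneg (by positivity) (pow_nonneg (by linarith) _)
    refine (sum_le_card_nsmul _ _ _ h3).trans (le_of_eq ?_)
    rw [nsmul_eq_mul]

end Pool.Agent.H83.GR
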