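import Mathlib

/-!
# The numbers for few sets of variables

PROOF. `s = ε / 8`, `σ = ⌈ε n / 8⌉`, `e ≤ 2 δ n + p n / b + b + 1`. Then `(1 + c)^n 2^e (1 - s / 2)^σ` is
at most `exp (c n + e log 2 - σ s / 2) ≤ 1 / 2`, and `2 (2 - ε)^n ((1 + s) / 2)^k ≤ 1` for
`k ≥ n (1 - p / b - ε / 8) - 1`.
-/

namespace Pool.Agent.H83.GR

open Finset

theorem numF (ε : ℝ) (hε : 0 < ε) (hε1 : ε ≤ 1) (δ : ℝ) (hδ0 : 0 < δ) (hδ : δ ≤ ε ^ 2 / 1024)
    (p b : ℕ) (hb1 : 1 ≤ b) (hb : 1024 * (p : ℝ) / ε ^ 2 ≤ b) : ∃ n₀ : ℕ, ∀ n ≥ n₀, ∃ σ : ℕ,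
    ∀ N D : ℝ, 0 ≤ N → 0 ≤ D → D ≤ (1 + ε ^ 2 / 1024) ^ n →
      1 ≤ N * ((1 + ε / 8) / 2) ^ (n - (p - 1) * (n / b) - σ) +
        D * (2 ^ (⌈δ * (n / b : ℕ)⌉₊ * (b + 1) + p * (n / b)) * (1 - ε / 8 / 2) ^ σ) →
      (2 - ε) ^ n ≤ N := by
  have hbR : (1 : ℝ) ≤ b := by exact_mod_cast hb1
  have hb0 : (0 : ℝ) < b := by linarith
  have he2 : 0 < ε ^ 2 := by positivity
  have hpb : (p : ℝ) ≤ ε ^ 2 / 1024 * b := by
    have h := (div_le_iff₀ he2).1 hb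
    linarith
  have hee : ε ^ 2 ≤ ε := by nlinarith
  have hL0 := Real.log_two_gt_d9
  have hL1 := Real.log_two_lt_d9
  obtain ⟨n₀, hn₀⟩ := exists_nat_ge (max (16 / ε) (1000 * (b + 2) / ε ^ 2))
  refine ⟨n₀, fun n hn => ⟨⌈ε / 8 * n⌉₊, fun N D hN hD hDn h => ?_⟩⟩
  have hnR : (n₀ : ℝ) ≤ n := by exact_mod_cast hn
  have hn1 : 16 ≤ ε * n := by
    have h1 : 16 / ε ≤ n := (le_max_left _ _).trans (hn₀.trans hnR)
    have h2 := (div_le_iff₀ hε).1 h1
    linarith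
  have hn2 : 1000 * ((b : ℝ) + 2) ≤ ε ^ 2 * n := by
    have h1 : 1000 * ((b : ℝ) + 2) / ε ^ 2 ≤ n := (le_max_right _ _).trans (hn₀.trans hnR)
    have h2 := (div_le_iff₀ he2).1 h1
    linarith
  have hn0 : (0 : ℝ) ≤ n := Nat.cast_nonneg n
  obtain ⟨σ, hσ⟩ : ∃ σ : ℕ, σ = ⌈ε / 8 * n⌉₊ := ⟨_, rfl⟩
  rw [← hσ] at h
  have hσ1 : ε / 8 * n ≤ σ := by rw [hσ]; exact Nat.le_ceil _
  have hσ2 : (σ : ℝ) ≤ ε / 8 * n + 1 := by
    rw [hσ]
    exact (Nat.ceil_lt_add_one (by positivity)).le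
  obtain ⟨u, hu⟩ : ∃ u : ℕ, u = n / b := ⟨_, rfl⟩
  rw [← hu] at h
  have hub : (u : ℝ) * b ≤ n := by
    have h1 : u * b ≤ n := by rw [hu]; exact Nat.div_mul_le_self n b
    exact_mod_cast h1
  have hu0 : (0 : ℝ) ≤ u := Nat.cast_nonneg u
  have hpu : (p : ℝ) * u ≤ ε ^ 2 / 1024 * n := by
    calc (p : ℝ) * u ≤ ε ^ 2 / 1024 * b * u := mul_le_mul_of_nonneg_right hpb hu0
      _ = ε ^ 2 / 1024 * (u * b) := by ring
      _ ≤ ε ^ 2 / 1024 * n := mul_le_mul_of_nonneg_left hub (by positivity)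
  obtain ⟨e, he⟩ : ∃ e : ℕ, e = ⌈δ * (u : ℝ)⌉₊ * (b + 1) + p * u := ⟨_, rfl⟩
  rw [← he] at h
  have heR : (e : ℝ) ≤ 3 * (ε ^ 2 / 1024 * n) + (b + 1) := by
    have h1 : (⌈δ * (u : ℝ)⌉₊ : ℝ) ≤ δ * u + 1 := (Nat.ceil_lt_add_one (by positivity)).le
    have h2 : (e : ℝ) = (⌈δ * (u : ℝ)⌉₊ : ℝ) * (b + 1) + p * u := by
      rw [he]; push_cast; ring
    have h3 : (⌈δ * (u : ℝ)⌉₊ : ℝ) * (b + 1) ≤ (δ * u + 1) * (b + 1) :=
      mul_le_mul_of_nonneg_right h1 (by linarith)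
    have h4 : δ * u * (b + 1) ≤ 2 * (ε ^ 2 / 1024 * n) := by
      calc δ * u * (b + 1) ≤ δ * u * (b + b) :=
            mul_le_mul_of_nonneg_left (by linarith) (by positivity)
        _ = 2 * (δ * (u * b)) := by ring
        _ ≤ 2 * (ε ^ 2 / 1024 * n) := by
            have h5 : δ * (u * b) ≤ ε ^ 2 / 1024 * n :=
              mul_le_mul hδ hub (by positivity) (by positivity)
            linarith
    have h6 : (δ * u + 1) * ((b : ℝ) + 1) = δ * u * (b + 1) + (b + 1) := by ring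
    linarith
  have hB : D * (2 ^ e * (1 - ε / 8 / 2) ^ σ) ≤ 1 / 2 := by
    have h1 : (1 + ε ^ 2 / 1024) ^ n ≤ Real.exp (ε ^ 2 / 1024 * n) := by
      have h2 : 1 + ε ^ 2 / 1024 ≤ Real.exp (ε ^ 2 / 1024) := by
        have := Real.add_one_le_exp (ε ^ 2 / 1024)
        linarith
      calc (1 + ε ^ 2 / 1024) ^ n ≤ Real.exp (ε ^ 2 / 1024) ^ n :=
            pow_le_pow_left₀ (by positivity) h2 n
        _ = Real.exp (ε ^ 2 / 1024 * n) := by rw [← Real.exp_nat_mul]; ring_nf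
    have h3 : (2 : ℝ) ^ e = Real.exp (Real.log 2 * e) := by
      rw [mul_comm, Real.exp_nat_mul, Real.exp_log (by norm_num)]
    have h4 : (1 - ε / 8 / 2) ^ σ ≤ Real.exp (-(ε / 16) * σ) := by
      have h5 : 1 - ε / 8 / 2 ≤ Real.exp (-(ε / 16)) := by
        have := Real.add_one_le_exp (-(ε / 16))
        linarith
      calc (1 - ε / 8 / 2) ^ σ ≤ Real.exp (-(ε / 16)) ^ σ :=
            pow_le_pow_left₀ (by linarith) h5 σ
        _ = Real.exp (-(ε / 16) * σ) := by rw [← Real.exp_nat_mul]; ring_nf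
    have h6 : 0 ≤ (1 - ε / 8 / 2) ^ σ := pow_nonneg (by linarith) _
    have h7 : D * (2 ^ e * (1 - ε / 8 / 2) ^ σ) ≤
        Real.exp (ε ^ 2 / 1024 * n) * (Real.exp (Real.log 2 * e) * Real.exp (-(ε / 16) * σ)) := by
      rw [h3]
      refine mul_le_mul (hDn.trans h1) ?_ (by positivity) (Real.exp_pos _).le
      exact mul_le_mul_of_nonneg_left h4 (Real.exp_pos _).le
    rw [← Real.exp_add, ← Real.exp_add] at h7
    have h8 : ε ^ 2 / 1024 * n + (Real.log 2 * e + -(ε / 16) * σ) ≤ -Real.log 2 := by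
      have h9 : Real.log 2 * e ≤ Real.log 2 * (3 * (ε ^ 2 / 1024 * n) + (b + 1)) :=
        mul_le_mul_of_nonneg_left heR (by linarith)
      have h10 : ε / 16 * (ε / 8 * n) ≤ ε / 16 * σ :=
        mul_le_mul_of_nonneg_left hσ1 (by positivity)
      have h11 : ε / 16 * (ε / 8 * n) = 8 * (ε ^ 2 / 1024 * n) := by ring
      have h12 : 0 ≤ ε ^ 2 / 1024 * n := by positivity
      have h13 : Real.log 2 * (3 * (ε ^ 2 / 1024 * n) + (b + 1)) ≤
          1 * (3 * (ε ^ 2 / 1024 * n) + (b + 1)) :=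
        mul_le_mul_of_nonneg_right (by linarith) (by positivity)
      have h14 : ε ^ 2 / 1024 * n = ε ^ 2 * n / 1024 := by ring
      linarith
    calc _ ≤ _ := h7
      _ ≤ Real.exp (-Real.log 2) := Real.exp_le_exp.2 h8
      _ = 1 / 2 := by rw [Real.exp_neg, Real.exp_log (by norm_num)]; norm_num
  obtain ⟨k, hk⟩ : ∃ k : ℕ, k = n - (p - 1) * u - σ := ⟨_, rfl⟩
  rw [← hk] at h
  have hkR : (n : ℝ) - ε ^ 2 / 1024 * n - (ε / 8 * n + 1) ≤ k := by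
    have h1 : n ≤ k + (p * u + σ) := by
      have h2 : (p - 1) * u ≤ p * u := Nat.mul_le_mul_right _ (by omega)
      omega
    have h3 : (n : ℝ) ≤ k + (p * u + σ) := by exact_mod_cast h1
    linarith
  have hA : (2 - ε) ^ n * (2 * ((1 + ε / 8) / 2) ^ k) ≤ 1 := by
    have h1 : (2 - ε) ^ n ≤ Real.exp ((Real.log 2 - ε / 2) * n) := by
      have h2 : 2 - ε ≤ Real.exp (Real.log 2 - ε / 2) := by
        have h3 := Real.add_one_le_exp (-(ε / 2))
        rw [show Real.log 2 - ε / 2 = Real.log 2 + -(ε / 2) by ring, Real.exp_add,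
          Real.exp_log (by norm_num)]
        linarith
      calc (2 - ε) ^ n ≤ Real.exp (Real.log 2 - ε / 2) ^ n :=
            pow_le_pow_left₀ (by linarith) h2 n
        _ = Real.exp ((Real.log 2 - ε / 2) * n) := by rw [← Real.exp_nat_mul]; ring_nf
    have h4 : ((1 + ε / 8) / 2) ^ k ≤ Real.exp (-(Real.log 2 - ε / 8) * k) := by
      have h5 : (1 + ε / 8) / 2 ≤ Real.exp (-(Real.log 2 - ε / 8)) := by
        have h6 := Real.add_one_le_exp (ε / 8)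
        rw [show -(Real.log 2 - ε / 8) = ε / 8 + -Real.log 2 by ring, Real.exp_add,
          Real.exp_neg (Real.log 2), Real.exp_log (by norm_num)]
        linarith
      calc ((1 + ε / 8) / 2) ^ k ≤ Real.exp (-(Real.log 2 - ε / 8)) ^ k :=
            pow_le_pow_left₀ (by positivity) h5 k
        _ = Real.exp (-(Real.log 2 - ε / 8) * k) := by rw [← Real.exp_nat_mul]; ring_nf
    have h7 : (2 - ε) ^ n * (2 * ((1 + ε / 8) / 2) ^ k) ≤
        Real.exp ((Real.log 2 - ε / 2) * n) * (Real.exp (Real.log 2) *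
          Real.exp (-(Real.log 2 - ε / 8) * k)) := by
      refine mul_le_mul h1 ?_ (by positivity) (Real.exp_pos _).le
      rw [Real.exp_log (by norm_num)]
      exact mul_le_mul_of_nonneg_left h4 (by norm_num)
    rw [← Real.exp_add, ← Real.exp_add] at h7
    refine h7.trans ?_
    rw [Real.exp_le_one_iff]
    have h8 : (Real.log 2 - ε / 8) * ((n : ℝ) - ε ^ 2 / 1024 * n - (ε / 8 * n + 1)) ≤
        (Real.log 2 - ε / 8) * k := mul_le_mul_of_nonneg_left hkR (by linarith)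
    have h9 : ε ^ 2 / 1024 * n ≤ ε / 1024 * n :=
      mul_le_mul_of_nonneg_right (by linarith) hn0
    have h10 : (Real.log 2 - ε / 8) * (ε ^ 2 / 1024 * n + (ε / 8 * n + 1)) ≤
        1 * (ε / 1024 * n + (ε / 8 * n + 1)) :=
      mul_le_mul (by linarith) (by linarith) (by positivity) (by norm_num)
    have h11 : (Real.log 2 - ε / 8) * ((n : ℝ) - ε ^ 2 / 1024 * n - (ε / 8 * n + 1)) =
        (Real.log 2 - ε / 8) * n - (Real.log 2 - ε / 8) * (ε ^ 2 / 1024 * n + (ε / 8 * n + 1)) := by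
      ring
    have h12 : (Real.log 2 - ε / 2) * n + (Real.log 2 + -(Real.log 2 - ε / 8) * k) ≤
        (Real.log 2 - ε / 2) * n + Real.log 2 - (Real.log 2 - ε / 8) * n +
          (ε / 1024 * n + (ε / 8 * n + 1)) := by
      linarith
    have h13 : (Real.log 2 - ε / 2) * n + Real.log 2 - (Real.log 2 - ε / 8) * n +
          (ε / 1024 * n + (ε / 8 * n + 1)) = Real.log 2 + 1 - (1 / 4 - 1 / 1024) * (ε * n) := by
      ring
    linarith
  have h1 : 1 / 2 ≤ N * ((1 + ε / 8) / 2) ^ k := by linarith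
  have hA0 : 0 < ((1 + ε / 8) / 2) ^ k := by positivity
  have h2 : (2 - ε) ^ n * (2 * ((1 + ε / 8) / 2) ^ k) ≤ N * (2 * ((1 + ε / 8) / 2) ^ k) := by
    linarith
  exact le_of_mul_le_mul_right h2 (by positivity)

end Pool.Agent.H83.GR
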